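import Pool.Agent.Run7.h899.Homeo

/-!
# Components of tropical Brill-Noether loci of dimension smaller than expected

For every `k ≥ 5` there is a metric graph of genus `k + 1` such that for every marked point `w` the
locus `W^λ(Γ, w)`, `λ = (2, 2)`, has a point near which it is homeomorphic to the real line, so that
its local dimension there is one, although `g - |λ| = k - 3 ≥ 2`.
-/

set_option autoImplicit false

namespace Pool.Agent.Results.MP_ee5a6e_co.LocalDimDrop

open Run7.h899

/-- For every `k ≥ 5` there is a metric graph `G` of genus `g = k + 1` such that for every point `w`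
of `G` there are a partition `λ` (namely `(2, 2)`, with `|λ| = 4`) and a point `P` of the locus
`W^λ(G, w)` in `Pic⁰(G)` at which the local dimension of `W^λ(G, w)` is less than
`2 ≤ g - |λ| = k - 3`; moreover `W^λ(G, w)` is homeomorphic to the real line in an open
neighbourhood of `P`. -/
theorem result (k : ℕ) (hk : 5 ≤ k) :
    ∃ G : MetricGraph, G.genus = k + 1 ∧ ∀ w : G.Pt,
      ∃ (lam : YoungDiagram) (P : G.Pic0), lam.rowLens = [2, 2] ∧ P ∈ G.W w lam ∧
        LocalDimLT (G.W w lam) P 2 ∧ (2 : ℤ) ≤ G.genus - lam.card ∧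
        G.genus - lam.card = k - 3 ∧
        ∃ U : Set G.Pic0, IsOpen U ∧ P ∈ U ∧ Nonempty (↥(G.W w lam ∩ U) ≃ₜ ℝ) := by
  have : NeZero k := ⟨by omega⟩
  have hk4 : 4 ≤ k := by omega
  refine ⟨ringG k, ring_genus k, fun w => ⟨sq, gam w (3 / 2), sq_rowLens,
    gam_mem hk4 w (by norm_num) (by norm_num), local_dim hk4 w, ?_, ?_,
    nbd w, isOpen_nbd w, gam_mem_nbd hk4 w (by constructor <;> norm_num),
    nonempty_homeo hk4 w⟩⟩
  · rw [ring_genus, sq_card]; push_cast; omega
  · rw [ring_genus, sq_card]; push_cast; ring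

end Pool.Agent.Results.MP_ee5a6e_co.LocalDimDrop
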